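import Mathlib

/-!
MP_f8e877_nt, Q1: part (c) (with `B_k`, as posed) fails, e.g. for `p = 11`.
-/

set_option autoImplicit false

namespace Pool.Agent.Results.MP_f8e877_nt.PartCFails

/-- `T_n(b,c)` -/
def T (n : ℕ) (b c : ℤ) : ℤ :=
  ∑ j ∈ Finset.range (n / 2 + 1), (n.choose (2 * j) : ℤ) * ((2 * j).choose j) * b ^ (n - 2 * j) * c ^ j

/-- `B_k = binom(2k,k)^2` -/
def B (k : ℕ) : ℚ := ((2 * k).choose k) ^ 2

/-- `v_k = (-512)^(-k) T_{3k}(6,1)` -/
def v (k : ℕ) : ℚ := (T (3 * k) 6 1 : ℚ) / (-512) ^ k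

/-- `a ≡ b (mod p^m)`: `(a-b)/p^m` is `p`-integral -/
def Cong (p m : ℕ) (a b : ℚ) : Prop := ¬ p ∣ ((a - b) / (p : ℚ) ^ m).den

/-- part (c) for the prime `p` -/
def PartC (p : ℕ) : Prop :=
  Cong p 2 (∑ k ∈ Finset.range p, (35 * k + 9) * B k * v k)
    (9 / 32 * p * jacobiSym 2 p * (25 + 7 * jacobiSym p 7))

/-- Part (c) fails for every prime `7 < p < 50`; in fact its left side is not even divisible
by `p` (and the right side is). -/
theorem result : ∀ p : ℕ, p.Prime → 7 < p → p < 50 →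
    ¬ PartC p ∧ ¬ Cong p 1 (∑ k ∈ Finset.range p, (35 * k + 9) * B k * v k) 0 := by
  have h : ∀ p ∈ [11, 13, 17, 19, 23, 29, 31, 37, 41, 43, 47],
      ∀ s ∈ [(1 : ℤ), -1], ∀ t ∈ [(1 : ℤ), -1],
      ¬ Cong p 2 (∑ k ∈ Finset.range p, (35 * k + 9) * B k * v k)
        (9 / 32 * p * s * (25 + 7 * t)) ∧
      ¬ Cong p 1 (∑ k ∈ Finset.range p, (35 * k + 9) * B k * v k) 0 := by
    unfold Cong
    decide +kernel
  intro p hp h1 h2
  have hmem : p ∈ [11, 13, 17, 19, 23, 29, 31, 37, 41, 43, 47] := by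
    interval_cases p <;> first | decide | (exfalso; revert hp; norm_num)
  have hs : jacobiSym 2 p ∈ [(1 : ℤ), -1] := by
    have := jacobiSym.eq_one_or_neg_one (a := 2) (b := p) (by
      rw [Int.gcd_eq_natAbs, Int.natAbs_natCast]
      exact (Nat.coprime_primes Nat.prime_two hp).2 (by omega))
    simpa using this
  have ht : jacobiSym p 7 ∈ [(1 : ℤ), -1] := by
    have := jacobiSym.eq_one_or_neg_one (a := p) (b := 7) (by
      rw [Int.gcd_eq_natAbs, Int.natAbs_natCast]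
      exact (Nat.coprime_primes hp (by norm_num)).2 (by omega))
    simpa using this
  exact h p hmem _ hs _ ht

end Pool.Agent.Results.MP_f8e877_nt.PartCFails
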